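import Mathlib

/-! Locating colourings: definitions and elementary facts, lower bounds for `K_m □ H`. -/

set_option autoImplicit false
open SimpleGraph

namespace Pool.Agent.X54.LC

variable {V : Type}

/-- distance from the vertex `v` to the colour class of the colour `i` -/
noncomputable def distClass (G : SimpleGraph V) {k : ℕ} (c : V → Fin k) (v : V) (i : Fin k) : ℕ :=
  sInf {r | ∃ s, c s = i ∧ r = G.dist v s}

/-- locating `k`-colouring: a proper colouring with `k` nonempty colour classes such that distinct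
vertices have distinct colour codes -/
def Locating (G : SimpleGraph V) (k : ℕ) (c : V → Fin k) : Prop :=
  (∀ u v, G.Adj u v → c u ≠ c v) ∧ Function.Surjective c ∧
    ∀ u v, (∀ i, distClass G c u i = distClass G c v i) → u = v

/-- the locating chromatic number -/
noncomputable def chiL (G : SimpleGraph V) : ℕ := sInf {k | ∃ c : V → Fin k, Locating G k c}

lemma distClass_le {G : SimpleGraph V} {k : ℕ} {c : V → Fin k} (hs : Function.Surjective c)
    (v : V) (i : Fin k) (r : ℕ) : distClass G c v i ≤ r ↔ ∃ s, c s = i ∧ G.dist v s ≤ r := by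
  constructor
  · intro h
    have hne : ({r | ∃ s, c s = i ∧ r = G.dist v s} : Set ℕ).Nonempty := by
      obtain ⟨t, ht⟩ := hs i
      exact ⟨G.dist v t, t, ht, rfl⟩
    obtain ⟨s, h1, h2⟩ := Nat.sInf_mem hne
    exact ⟨s, h1, h2 ▸ h⟩
  · rintro ⟨s, h1, h2⟩
    have h3 : distClass G c v i ≤ G.dist v s := Nat.sInf_le ⟨s, h1, rfl⟩
    exact h3.trans h2

lemma dist_le_one {G : SimpleGraph V} (hG : G.Connected) {u v : V} :
    G.dist u v ≤ 1 ↔ u = v ∨ G.Adj u v := by
  constructor
  · intro h
    by_contra h'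
    push Not at h'
    have := hG.one_lt_dist_of_ne_of_not_adj h'.1 h'.2
    omega
  · rintro (rfl | h)
    · simp
    · rw [SimpleGraph.dist_eq_one_iff_adj.2 h]

lemma dc_zero {G : SimpleGraph V} (hG : G.Connected) {k : ℕ} {c : V → Fin k}
    (hs : Function.Surjective c) (v : V) (i : Fin k) : distClass G c v i = 0 ↔ c v = i := by
  rw [← Nat.le_zero, distClass_le hs]
  constructor
  · rintro ⟨s, h1, h2⟩
    have : v = s := hG.dist_eq_zero_iff.1 (Nat.le_zero.1 h2)
    rw [this, h1]
  · intro h
    exact ⟨v, h, by simp⟩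

lemma dc_one {G : SimpleGraph V} (hG : G.Connected) {k : ℕ} {c : V → Fin k}
    (hs : Function.Surjective c) {v : V} {i : Fin k} (h0 : c v ≠ i) (u : V) (hu : G.Adj v u)
    (hc : c u = i) : distClass G c v i = 1 := by
  have h1 : distClass G c v i ≤ 1 := (distClass_le hs v i 1).2 ⟨u, hc, (dist_le_one hG).2 (Or.inr hu)⟩
  have h2 : distClass G c v i ≠ 0 := fun h => h0 ((dc_zero hG hs v i).1 h)
  omega

lemma dc_two {G : SimpleGraph V} (hG : G.Connected) {k : ℕ} {c : V → Fin k}
    (hs : Function.Surjective c) {v : V} {i : Fin k} (h0 : c v ≠ i) (h1 : ∀ u, G.Adj v u → c u ≠ i)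
    (u : V) (hu : G.dist v u ≤ 2) (hc : c u = i) : distClass G c v i = 2 := by
  have h2 : distClass G c v i ≤ 2 := (distClass_le hs v i 2).2 ⟨u, hc, hu⟩
  have h3 : ¬ distClass G c v i ≤ 1 := by
    rw [distClass_le hs]
    rintro ⟨s, hs1, hs2⟩
    rcases (dist_le_one hG).1 hs2 with rfl | h
    · exact h0 hs1
    · exact h1 s h hs1
  omega

section LB

variable {m n : ℕ} {H : SimpleGraph (Fin n)}

/-- `K_m □ H` -/
abbrev KH (m : ℕ) {n : ℕ} (H : SimpleGraph (Fin n)) : SimpleGraph (Fin m × Fin n) :=
  (⊤ : SimpleGraph (Fin m)) □ H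

lemma KH_conn (hm : 0 < m) (hH : H.Connected) : (KH m H).Connected := by
  have : Nonempty (Fin m) := ⟨⟨0, hm⟩⟩
  exact SimpleGraph.Connected.boxProd SimpleGraph.connected_top hH

lemma KH_adj {x y : Fin m × Fin n} :
    (KH m H).Adj x y ↔ (x.1 ≠ y.1 ∧ x.2 = y.2) ∨ (H.Adj x.2 y.2 ∧ x.1 = y.1) := by
  rw [SimpleGraph.boxProd_adj, SimpleGraph.top_adj]

lemma KH_dist (hm : 0 < m) (hH : H.Connected) (x y : Fin m × Fin n) :
    (KH m H).dist x y = (if x.1 = y.1 then 0 else 1) + H.dist x.2 y.2 := by
  have h1 := (KH_conn hm hH) x y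
  have h2 := hH x.2 y.2
  have h3 := SimpleGraph.edist_boxProd (G := (⊤ : SimpleGraph (Fin m))) (H := H) x y
  rw [← h1.coe_dist_eq_edist, ← h2.coe_dist_eq_edist, SimpleGraph.edist_top] at h3
  split_ifs with h
  · rw [if_pos h] at h3
    have : ((KH m H).dist x y : ℕ∞) = ((0 + H.dist x.2 y.2 : ℕ) : ℕ∞) := by
      rw [h3]; push_cast; rfl
    exact_mod_cast this
  · rw [if_neg h] at h3
    have : ((KH m H).dist x y : ℕ∞) = ((1 + H.dist x.2 y.2 : ℕ) : ℕ∞) := by
      rw [h3]; push_cast; rfl
    exact_mod_cast this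

lemma fib_inj {k : ℕ} {c : Fin m × Fin n → Fin k} (hc : Locating (KH m H) k c) (h : Fin n) :
    Function.Injective (fun g => c (g, h)) := by
  intro g g' hg
  by_contra hne
  exact hc.1 (g, h) (g', h) (KH_adj.2 (Or.inl ⟨hne, rfl⟩)) hg

/-- at least `m + 1` colours are needed -/
lemma lb_one (hm : 0 < m) (hn : 2 ≤ n) (hH : H.Connected) {k : ℕ} {c : Fin m × Fin n → Fin k}
    (hc : Locating (KH m H) k c) : m + 1 ≤ k := by
  have hG := KH_conn hm hH
  have h1 : m ≤ k := by
    have := Fintype.card_le_of_injective _ (fib_inj hc ⟨0, by omega⟩)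
    simpa using this
  rcases h1.eq_or_lt with h2 | h2
  · exfalso
    subst h2
    have hsur : ∀ h, Function.Surjective (fun g => c (g, h)) := fun h =>
      Finite.injective_iff_surjective.1 (fib_inj hc h)
    let x : Fin n := ⟨0, by omega⟩
    let y : Fin n := ⟨1, by omega⟩
    let g : Fin m := ⟨0, hm⟩
    obtain ⟨g', hg'⟩ := hsur y (c (g, x))
    have hg'' : c (g', y) = c (g, x) := hg'
    have key : (g, x) = (g', y) := by
      apply hc.2.2
      intro i
      by_cases hi : c (g, x) = i
      · rw [(dc_zero hG hc.2.1 (g, x) i).2 hi, (dc_zero hG hc.2.1 (g', y) i).2 (hg''.trans hi)]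
      · obtain ⟨a, ha⟩ := hsur x i
        obtain ⟨a', ha'⟩ := hsur y i
        have ha : c (a, x) = i := ha
        have ha' : c (a', y) = i := ha'
        rw [dc_one hG hc.2.1 hi (a, x) (KH_adj.2 (Or.inl ⟨?_, rfl⟩)) ha,
          dc_one hG hc.2.1 (v := (g', y)) (by rw [hg'']; exact hi) (a', y)
            (KH_adj.2 (Or.inl ⟨?_, rfl⟩)) ha']
        · intro h
          simp only at h
          rw [← h] at ha'
          exact hi (hg''.symm.trans ha')
        · intro h
          simp only at h
          rw [← h] at ha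
          exact hi ha
    have := congrArg (fun q : Fin m × Fin n => q.2.val) key
    simp [x, y] at this
  · omega

lemma miss {m : ℕ} {φ : Fin m → Fin (m + 1)} (hφ : Function.Injective φ) :
    ∃ b, (∀ g, φ g ≠ b) ∧ ∀ i, i ≠ b → ∃ g, φ g = i := by
  classical
  have hcard : (Finset.univ.image φ)ᶜ.card = 1 := by
    rw [Finset.card_compl, Finset.card_image_of_injective _ hφ]
    simp
  obtain ⟨b, hb⟩ := Finset.card_eq_one.1 hcard
  refine ⟨b, ?_, ?_⟩
  · intro g hg
    have : b ∈ (Finset.univ.image φ)ᶜ := by rw [hb]; simp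
    rw [Finset.mem_compl] at this
    exact this (Finset.mem_image.2 ⟨g, Finset.mem_univ _, hg⟩)
  · intro i hi
    have : i ∉ (Finset.univ.image φ)ᶜ := by rw [hb]; simpa using hi
    rw [Finset.mem_compl, not_not] at this
    obtain ⟨g, -, hg⟩ := Finset.mem_image.1 this
    exact ⟨g, hg⟩

lemma boundary {H : SimpleGraph (Fin n)} (hH : H.Connected) (T : Set (Fin n)) {z w : Fin n}
    (hz : z ∈ T) (hw : w ∉ T) : ∃ a a', a ∈ T ∧ a' ∉ T ∧ H.Adj a a' := by
  obtain ⟨p⟩ := hH z w
  obtain ⟨d, -, h1, h2⟩ := p.exists_boundary_dart T hz hw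
  exact ⟨d.fst, d.snd, h1, h2, d.adj⟩

/-- with `m + 1` colours there are at most `m + 1` fibres -/
lemma lb_two (hm : 5 ≤ m) (hH : H.Connected)
    (hdeg : ∀ x, ∃ p q, ∀ e, H.Adj x e → e = p ∨ e = q)
    {c : Fin m × Fin n → Fin (m + 1)} (hc : Locating (KH m H) (m + 1) c) : n ≤ m + 1 := by
  classical
  have hm0 : 0 < m := by omega
  have hG := KH_conn hm0 hH
  choose b hb1 hb2 using fun h => miss (fib_inj hc h)
  have hb1' : ∀ h g, c (g, h) ≠ b h := fun h g => hb1 h g
  have hb2' : ∀ h i, i ≠ b h → ∃ g, c (g, h) = i := fun h i hi => hb2 h i hi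
  have hdist2 : ∀ (g g' : Fin m) (x y : Fin n), H.dist x y ≤ 1 →
      (KH m H).dist (g, x) (g', y) ≤ 2 := by
    intro g g' x y h
    rw [KH_dist hm0 hH]
    split_ifs <;> simp only at h ⊢ <;> omega
  -- the codes of two vertices of the same colour in fibres with the same missing colour
  have key : ∀ (x y : Fin n) (g g' : Fin m), b x = b y → c (g, x) = c (g', y) →
      (∀ e, H.Adj x e → c (g, e) ≠ b x) → (∀ e, H.Adj y e → c (g', e) ≠ b x) →
      (∃ u, (KH m H).dist (g, x) u ≤ 2 ∧ c u = b x) →
      (∃ u, (KH m H).dist (g', y) u ≤ 2 ∧ c u = b x) → x = y := by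
    intro x y g g' hxy hcol h1 h2 ⟨u, hu1, hu2⟩ ⟨u', hu1', hu2'⟩
    have : (g, x) = (g', y) := by
      apply hc.2.2
      intro i
      by_cases hi : c (g, x) = i
      · rw [(dc_zero hG hc.2.1 (g, x) i).2 hi, (dc_zero hG hc.2.1 (g', y) i).2 (hcol ▸ hi)]
      · by_cases hib : i = b x
        · subst hib
          rw [dc_two hG hc.2.1 (hb1' x g) ?_ u hu1 hu2,
            dc_two hG hc.2.1 (v := (g', y)) (hcol ▸ hb1' x g) ?_ u' hu1' hu2']
          · rintro ⟨a, e⟩ hadj
            rcases KH_adj.1 hadj with ⟨-, h⟩ | ⟨h, h'⟩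
            · simp only at h
              subst h
              rw [hxy]
              exact hb1' _ a
            · simp only at h'
              subst h'
              exact h2 e h
          · rintro ⟨a, e⟩ hadj
            rcases KH_adj.1 hadj with ⟨-, h⟩ | ⟨h, h'⟩
            · simp only at h
              subst h
              exact hb1' _ a
            · simp only at h'
              subst h'
              exact h1 e h
        · obtain ⟨a, ha⟩ := hb2' x i hib
          obtain ⟨a', ha'⟩ := hb2' y i (hxy ▸ hib)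
          rw [dc_one hG hc.2.1 hi (a, x) (KH_adj.2 (Or.inl ⟨?_, rfl⟩)) ha,
            dc_one hG hc.2.1 (v := (g', y)) (by rw [← hcol]; exact hi) (a', y)
              (KH_adj.2 (Or.inl ⟨?_, rfl⟩)) ha']
          · rintro h
            simp only at h
            subst h
            exact hi (hcol.trans ha')
          · rintro h
            simp only at h
            subst h
            exact hi ha
    exact congrArg Prod.snd this
  have hinj : Function.Injective b := by
    intro h h' hhh
    by_contra hne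
    set β := b h with hβ
    -- a fibre containing the colour `β`
    obtain ⟨⟨g₀, w⟩, hw⟩ := hc.2.1 β
    have hwS : b w ≠ β := by
      intro h1
      exact hb1' w g₀ (hw.trans h1.symm)
    let Bd : Fin n → Prop := fun x => b x = β ∧ ∃ e, H.Adj x e ∧ b e ≠ β
    by_cases hAB : ∃ x y, x ≠ y ∧ Bd x ∧ Bd y
    · obtain ⟨x, y, hxy, ⟨hx, x', hx1, hx2⟩, ⟨hy, y', hy1, hy2⟩⟩ := hAB
      -- special columns
      have hsp : ∀ z, ∃ g1 g2, ∀ g e, H.Adj z e → c (g, e) = β → g = g1 ∨ g = g2 := by
        intro z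
        obtain ⟨p, q, hpq⟩ := hdeg z
        have hcol : ∀ e, ∃ g1, ∀ g, c (g, e) = β → g = g1 := by
          intro e
          by_cases he : ∃ g1, c (g1, e) = β
          · obtain ⟨g1, hg1⟩ := he
            exact ⟨g1, fun g hg => fib_inj hc e (hg.trans hg1.symm)⟩
          · push Not at he
            exact ⟨⟨0, hm0⟩, fun g hg => absurd hg (he g)⟩
        obtain ⟨g1, hg1⟩ := hcol p
        obtain ⟨g2, hg2⟩ := hcol q
        refine ⟨g1, g2, fun g e hadj hce => ?_⟩
        rcases hpq e hadj with rfl | rfl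
        · exact Or.inl (hg1 g hce)
        · exact Or.inr (hg2 g hce)
      obtain ⟨g1, g2, hg12⟩ := hsp x
      obtain ⟨g3, g4, hg34⟩ := hsp y
      obtain ⟨i, hi⟩ : ∃ i : Fin (m + 1), i ∉ ({β, c (g1, x), c (g2, x), c (g3, y), c (g4, y)} :
          Finset (Fin (m + 1))) := by
        by_contra hcon
        push Not at hcon
        have h1 : Finset.univ ⊆ ({β, c (g1, x), c (g2, x), c (g3, y), c (g4, y)} :
          Finset (Fin (m + 1))) := fun i _ => hcon i
        have h2 := Finset.card_le_card h1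
        have h3 : ({β, c (g1, x), c (g2, x), c (g3, y), c (g4, y)} :
          Finset (Fin (m + 1))).card ≤ 5 := Finset.card_le_five
        rw [Finset.card_univ, Fintype.card_fin] at h2
        omega
      simp only [Finset.mem_insert, Finset.mem_singleton, not_or] at hi
      obtain ⟨hi0, hi1, hi2, hi3, hi4⟩ := hi
      obtain ⟨g, hg⟩ := hb2' x i (by rw [hx]; exact hi0)
      obtain ⟨g', hg'⟩ := hb2' y i (by rw [hy]; exact hi0)
      obtain ⟨a, ha⟩ := hb2' x' β (Ne.symm hx2)
      obtain ⟨a', ha'⟩ := hb2' y' β (Ne.symm hy2)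
      apply hxy
      refine key x y g g' (hx.trans hy.symm) (hg.trans hg'.symm) ?_ ?_ ?_ ?_
      · intro e he hce
        rw [hx] at hce
        rcases hg12 g e he hce with rfl | rfl
        · exact hi1 hg.symm
        · exact hi2 hg.symm
      · intro e he hce
        rw [hx] at hce
        rcases hg34 g' e he hce with rfl | rfl
        · exact hi3 hg'.symm
        · exact hi4 hg'.symm
      · exact ⟨(a, x'), hdist2 _ _ _ _ ((dist_le_one hH).2 (Or.inr hx1)), by rw [hx]; exact ha⟩
      · exact ⟨(a', y'), hdist2 _ _ _ _ ((dist_le_one hH).2 (Or.inr hy1)), by rw [hx]; exact ha'⟩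
    · push Not at hAB
      -- a non-boundary fibre
      obtain ⟨z, hz, hzB⟩ : ∃ z, b z = β ∧ ¬ Bd z := by
        by_cases h1 : Bd h
        · exact ⟨h', hhh.symm, fun h2 => hAB h h' hne h1 h2⟩
        · exact ⟨h, rfl, h1⟩
      obtain ⟨a, x, ⟨ha1, ha2⟩, hx, hax⟩ := boundary hH {z | b z = β ∧ ¬ Bd z} (z := z) (w := w)
        ⟨hz, hzB⟩ (fun h1 => hwS h1.1)
      have hxβ : b x = β := by
        by_contra hcon
        exact ha2 ⟨ha1, x, hax, hcon⟩
      have hxB : Bd x := by
        by_contra hcon
        exact hx ⟨hxβ, hcon⟩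
      obtain ⟨-, x0, hx1, hx2⟩ := hxB
      have hax0 : a ≠ x0 := by
        rintro rfl
        exact hx2 ha1
      have hnb : ∀ e, H.Adj x e → e = a ∨ e = x0 := by
        intro e he
        obtain ⟨p, q, hpq⟩ := hdeg x
        rcases hpq a hax.symm with h1 | h1 <;> rcases hpq x0 hx1 with h2 | h2 <;>
          rcases hpq e he with h3 | h3
        · exact absurd (h1.trans h2.symm) hax0
        · exact absurd (h1.trans h2.symm) hax0
        · exact Or.inl (h3.trans h1.symm)
        · exact Or.inr (h3.trans h2.symm)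
        · exact Or.inr (h3.trans h2.symm)
        · exact Or.inl (h3.trans h1.symm)
        · exact absurd (h1.trans h2.symm) hax0
        · exact absurd (h1.trans h2.symm) hax0
      obtain ⟨q0, hq0⟩ := hb2' x0 β (Ne.symm hx2)
      have hiβ : c (q0, a) ≠ β := by
        rw [← ha1]; exact hb1' a q0
      obtain ⟨g, hg⟩ := hb2' x (c (q0, a)) (by rw [hxβ]; exact hiβ)
      have hgq : g ≠ q0 := by
        rintro rfl
        exact hc.1 (g, x) (g, a) (KH_adj.2 (Or.inr ⟨hax.symm, rfl⟩)) hg
      have hfin : x = a := by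
        refine key x a g q0 (hxβ.trans ha1.symm) hg ?_ ?_ ?_ ?_
        · intro e he hce
          rw [hxβ] at hce
          rcases hnb e he with rfl | rfl
          · exact hb1' e g (hce.trans ha1.symm)
          · exact hgq (fib_inj hc e (hce.trans hq0.symm))
        · intro e he hce
          rw [hxβ] at hce
          have : b e = β := by
            by_contra hcon
            exact ha2 ⟨ha1, e, he, hcon⟩
          exact hb1' e q0 (hce.trans this.symm)
        · exact ⟨(q0, x0), hdist2 _ _ _ _ ((dist_le_one hH).2 (Or.inr hx1)), by rw [hxβ]; exact hq0⟩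
        · refine ⟨(q0, x0), ?_, by rw [hxβ]; exact hq0⟩
          rw [KH_dist hm0 hH]
          simp only [if_true, zero_add]
          have h1 := hH.dist_triangle (u := a) (v := x) (w := x0)
          have h2 : H.dist a x ≤ 1 := (dist_le_one hH).2 (Or.inr hax)
          have h3 : H.dist x x0 ≤ 1 := (dist_le_one hH).2 (Or.inr hx1)
          omega
      exact H.loopless.irrefl a (hfin ▸ hax)
  have := Fintype.card_le_of_injective _ hinj
  simpa using this

end LB

end Pool.Agent.X54.LC
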