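import Mathlib

/-! Filling a fibre by Hall's theorem, and compatible families of fibres. -/

set_option autoImplicit false
open Function

namespace Pool.Agent.X54.LC

/-- Hall's theorem: an injection `Fin m → Fin (m + 1)` avoiding `b0` with three prescribed values and
at most four forbidden colours per column and four forbidden columns per colour. -/
lemma fill {m : ℕ} (hm : 11 ≤ m) (b0 : Fin (m + 1)) (a : Fin 3 → Fin m) (c : Fin 3 → Fin (m + 1))
    (ha : Injective a) (hc : Injective c) (hcb : ∀ i, c i ≠ b0)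
    (R : Fin m → Fin (m + 1) → Prop)
    (hcol : ∀ g, ∃ S : Finset (Fin (m + 1)), S.card ≤ 4 ∧ ∀ x, R g x → x ∈ S)
    (hrow : ∀ x, ∃ S : Finset (Fin m), S.card ≤ 4 ∧ ∀ g, R g x → g ∈ S)
    (hR : ∀ i, ¬ R (a i) (c i)) :
    ∃ φ : Fin m → Fin (m + 1), Injective φ ∧ (∀ g, φ g ≠ b0) ∧ (∀ i, φ (a i) = c i) ∧
      ∀ g, ¬ R g (φ g) := by
  classical
  -- allowed colours
  let C : Finset (Fin (m + 1)) := (insert b0 (Finset.univ.image c))ᶜ
  have hCcard : C.card = m - 3 := by
    have h1 : (insert b0 (Finset.univ.image c)).card = 4 := by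
      rw [Finset.card_insert_of_notMem, Finset.card_image_of_injective _ hc]
      · simp
      · intro h
        obtain ⟨i, -, hi⟩ := Finset.mem_image.1 h
        exact hcb i hi
    have h2 := Finset.card_compl (insert b0 (Finset.univ.image c))
    rw [h1, Fintype.card_fin] at h2
    change C.card = _ at h2
    omega
  let A : Finset (Fin m) := Finset.univ.image a
  have hAcard : A.card = 3 := by
    rw [Finset.card_image_of_injective _ ha]; simp
  let t : {g : Fin m // g ∉ A} → Finset (Fin (m + 1)) := fun g => C.filter (fun x => ¬ R g.1 x)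
  have hall : ∀ s : Finset {g : Fin m // g ∉ A}, s.card ≤ (s.biUnion t).card := by
    intro s
    by_cases hs : s.card ≤ m - 7
    · rcases s.eq_empty_or_nonempty with rfl | ⟨g, hg⟩
      · simp
      · obtain ⟨S, hS1, hS2⟩ := hcol g.1
        have h1 : C \ S ⊆ s.biUnion t := by
          intro x hx
          rw [Finset.mem_sdiff] at hx
          exact Finset.mem_biUnion.2 ⟨g, hg, Finset.mem_filter.2 ⟨hx.1, fun h => hx.2 (hS2 x h)⟩⟩
        have h2 := Finset.card_le_card h1
        have h3 := Finset.le_card_sdiff S C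
        omega
    · have h1 : C ⊆ s.biUnion t := by
        intro x hx
        obtain ⟨S, hS1, hS2⟩ := hrow x
        have h2 : ∃ g ∈ s, g.1 ∉ S := by
          by_contra hcon
          push Not at hcon
          have h3 : s.image Subtype.val ⊆ S := by
            intro y hy
            obtain ⟨g, hg, rfl⟩ := Finset.mem_image.1 hy
            exact hcon g hg
          have h4 := Finset.card_le_card h3
          rw [Finset.card_image_of_injective _ Subtype.val_injective] at h4
          omega
        obtain ⟨g, hg, hgS⟩ := h2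
        exact Finset.mem_biUnion.2 ⟨g, hg, Finset.mem_filter.2 ⟨hx, fun h => hgS (hS2 _ h)⟩⟩
      have h2 := Finset.card_le_card h1
      have h3 : s.card ≤ m - 3 := by
        have h4 := Finset.card_le_univ s
        have h5 : Fintype.card {g : Fin m // g ∉ A} = m - 3 := by
          rw [Fintype.card_subtype_compl, Fintype.card_fin]
          simp [hAcard]
        omega
      omega
  obtain ⟨F, hF1, hF2⟩ := (Finset.all_card_le_biUnion_card_iff_exists_injective t).1 hall
  have hF3 : ∀ g, F g ≠ b0 ∧ (∀ i, F g ≠ c i) ∧ ¬ R g.1 (F g) := by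
    intro g
    have h1 := Finset.mem_filter.1 (hF2 g)
    have h2 : F g ∉ insert b0 (Finset.univ.image c) := Finset.mem_compl.1 h1.1
    refine ⟨fun h => h2 (by rw [h]; exact Finset.mem_insert_self _ _), fun i h => h2 ?_, h1.2⟩
    rw [h]
    exact Finset.mem_insert_of_mem (Finset.mem_image.2 ⟨i, Finset.mem_univ _, rfl⟩)
  have hex : ∀ g, g ∈ A → ∃ i, a i = g := by
    intro g hg
    obtain ⟨i, -, hi⟩ := Finset.mem_image.1 hg
    exact ⟨i, hi⟩
  have haA : ∀ i, a i ∈ A := fun i => Finset.mem_image.2 ⟨i, Finset.mem_univ _, rfl⟩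
  let φ : Fin m → Fin (m + 1) := fun g =>
    if h : g ∈ A then c (Classical.choose (hex g h)) else F ⟨g, h⟩
  have hφ1 : ∀ i, φ (a i) = c i := by
    intro i
    have h1 : a (Classical.choose (hex (a i) (haA i))) = a i :=
      Classical.choose_spec (hex (a i) (haA i))
    simp only [φ]
    rw [dif_pos (haA i), ha h1]
  have hφ2 : ∀ g (h : g ∉ A), φ g = F ⟨g, h⟩ := by
    intro g h
    simp only [φ]
    rw [dif_neg h]
  refine ⟨φ, ?_, ?_, hφ1, ?_⟩
  · intro g g' hg
    by_cases h : g ∈ A <;> by_cases h' : g' ∈ A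
    · obtain ⟨i, rfl⟩ := hex g h
      obtain ⟨i', rfl⟩ := hex g' h'
      rw [hφ1, hφ1] at hg
      rw [hc hg]
    · obtain ⟨i, rfl⟩ := hex g h
      rw [hφ1, hφ2 g' h'] at hg
      exact absurd hg.symm ((hF3 _).2.1 i)
    · obtain ⟨i, rfl⟩ := hex g' h'
      rw [hφ1, hφ2 g h] at hg
      exact absurd hg ((hF3 _).2.1 i)
    · rw [hφ2 g h, hφ2 g' h'] at hg
      exact congrArg Subtype.val (hF1 hg)
  · intro g
    by_cases h : g ∈ A
    · obtain ⟨i, rfl⟩ := hex g h
      rw [hφ1]
      exact hcb i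
    · rw [hφ2 g h]
      exact (hF3 _).1
  · intro g
    by_cases h : g ∈ A
    · obtain ⟨i, rfl⟩ := hex g h
      rw [hφ1]
      exact hR i
    · rw [hφ2 g h]
      exact (hF3 ⟨g, h⟩).2.2

section Ext

variable {m n : ℕ}

/-- what is required of the colouring `φ` of the fibre over `x` -/
def Inv (s : Equiv.Perm (Fin n)) (b β : Fin n → Fin (m + 1)) (j : Fin n → Fin m)
    (φ : Fin m → Fin (m + 1)) (x : Fin n) : Prop :=
  Injective φ ∧ (∀ g, φ g ≠ b x) ∧ φ (j (s.symm x)) = b (s.symm x) ∧ φ (j (s x)) = b (s x) ∧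
    φ (j x) = β x ∧ φ (j (s (s x))) ≠ b (s (s x)) ∧
    φ (j (s.symm (s.symm x))) ≠ b (s.symm (s.symm x))

/-- the conditions on `b`, `β`, `j` -/
structure Good (s : Equiv.Perm (Fin n)) (b β : Fin n → Fin (m + 1)) (j : Fin n → Fin m) : Prop where
  j1 : ∀ h, j (s h) ≠ j h
  j2 : ∀ h, j (s (s h)) ≠ j h
  j3 : ∀ h, j (s (s (s h))) ≠ j h
  b1 : ∀ h, b (s h) ≠ b h
  b2 : ∀ h, b (s (s h)) ≠ b h
  β0 : ∀ h, β h ≠ b h
  β1 : ∀ h, β h ≠ b (s h)
  β2 : ∀ h, β h ≠ b (s.symm h)

variable {s : Equiv.Perm (Fin n)} {b β : Fin n → Fin (m + 1)} {j : Fin n → Fin m}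

lemma step0 (hm : 11 ≤ m) (G : Good s b β j) (x : Fin n) (P : Fin m → Fin (m + 1) → Prop)
    (hcol : ∀ g, ∃ S : Finset (Fin (m + 1)), S.card ≤ 2 ∧ ∀ x, P g x → x ∈ S)
    (hrow : ∀ x, ∃ S : Finset (Fin m), S.card ≤ 2 ∧ ∀ g, P g x → g ∈ S)
    (h0 : ¬ P (j (s.symm x)) (b (s.symm x))) (h1 : ¬ P (j (s x)) (b (s x)))
    (h2 : ¬ P (j x) (β x)) :
    ∃ φ, Inv s b β j φ x ∧ ∀ g, ¬ P g (φ g) := by
  classical
  -- shifted forms of the hypotheses
  have e1 : s (s.symm x) = x := s.apply_symm_apply x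
  have e2 : s (s.symm (s.symm x)) = s.symm x := s.apply_symm_apply _
  have j1' : j x ≠ j (s.symm x) := by have := G.j1 (s.symm x); rwa [e1] at this
  have j2' : j (s x) ≠ j (s.symm x) := by have := G.j2 (s.symm x); rwa [e1] at this
  have j3' : j (s (s x)) ≠ j (s.symm x) := by have := G.j3 (s.symm x); rwa [e1] at this
  have j4' : j x ≠ j (s.symm (s.symm x)) := by
    have := G.j2 (s.symm (s.symm x)); rwa [e2, e1] at this
  have j5' : j (s x) ≠ j (s.symm (s.symm x)) := by
    have := G.j3 (s.symm (s.symm x)); rwa [e2, e1] at this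
  have j6' : j (s.symm x) ≠ j (s.symm (s.symm x)) := by
    have := G.j1 (s.symm (s.symm x)); rwa [e2] at this
  have b1' : b x ≠ b (s.symm x) := by have := G.b1 (s.symm x); rwa [e1] at this
  have b2' : b (s x) ≠ b (s.symm x) := by have := G.b2 (s.symm x); rwa [e1] at this
  let R : Fin m → Fin (m + 1) → Prop := fun g y =>
    (g = j (s (s x)) ∧ y = b (s (s x))) ∨
      (g = j (s.symm (s.symm x)) ∧ y = b (s.symm (s.symm x))) ∨ P g y
  have key := fill hm (b x) ![j (s.symm x), j (s x), j x]
    ![b (s.symm x), b (s x), β x] ?_ ?_ ?_ R ?_ ?_ ?_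
  · obtain ⟨φ, hφ1, hφ2, hφ3, hφ4⟩ := key
    have hφ5 := hφ3 0
    have hφ6 := hφ3 1
    have hφ7 := hφ3 2
    simp at hφ5 hφ6 hφ7
    refine ⟨φ, ⟨hφ1, hφ2, hφ5, hφ6, hφ7, ?_, ?_⟩, ?_⟩
    · intro h
      exact hφ4 _ (Or.inl ⟨rfl, h⟩)
    · intro h
      exact hφ4 _ (Or.inr (Or.inl ⟨rfl, h⟩))
    · intro g h
      exact hφ4 _ (Or.inr (Or.inr h))
  · intro i i' h
    have := G.j1 x
    fin_cases i <;> fin_cases i' <;> simp_all [eq_comm]
  · intro i i' h
    have := G.β1 x
    have := G.β2 x
    fin_cases i <;> fin_cases i' <;> simp_all [eq_comm]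
  · intro i
    fin_cases i
    · exact b1'.symm
    · exact G.b1 x
    · exact G.β0 x
  · intro g
    obtain ⟨S, hS1, hS2⟩ := hcol g
    refine ⟨insert (b (s (s x))) (insert (b (s.symm (s.symm x))) S), ?_, ?_⟩
    · have h3 := Finset.card_insert_le (b (s (s x))) (insert (b (s.symm (s.symm x))) S)
      have h4 := Finset.card_insert_le (b (s.symm (s.symm x))) S
      omega
    · rintro y (⟨-, h⟩ | ⟨-, h⟩ | h)
      · simp [h]
      · simp [h]
      · simp [hS2 y h]
  · intro y
    obtain ⟨S, hS1, hS2⟩ := hrow y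
    refine ⟨insert (j (s (s x))) (insert (j (s.symm (s.symm x))) S), ?_, ?_⟩
    · have h3 := Finset.card_insert_le (j (s (s x))) (insert (j (s.symm (s.symm x))) S)
      have h4 := Finset.card_insert_le (j (s.symm (s.symm x))) S
      omega
    · rintro g (⟨h, -⟩ | ⟨h, -⟩ | h)
      · simp [h]
      · simp [h]
      · simp [hS2 g h]
  · intro i
    fin_cases i
    · rintro (⟨h, -⟩ | ⟨h, -⟩ | h)
      · exact j3' h.symm
      · exact j6' h
      · exact h0 h
    · rintro (⟨h, -⟩ | ⟨h, -⟩ | h)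
      · exact G.j1 (s x) h.symm
      · exact j5' h
      · exact h1 h
    · rintro (⟨h, -⟩ | ⟨h, -⟩ | h)
      · exact G.j2 x h.symm
      · exact j4' h
      · exact h2 h

lemma step1 (hm : 11 ≤ m) (G : Good s b β j) (x : Fin n) {ψ ψ' : Fin m → Fin (m + 1)}
    (hψ : Inv s b β j ψ (s x)) (hψ' : Inv s b β j ψ' (s.symm x)) :
    ∃ φ, Inv s b β j φ x ∧ ∀ g, φ g ≠ ψ g ∧ φ g ≠ ψ' g := by
  classical
  obtain ⟨p1, p2, p3, p4, p5, p6, p7⟩ := hψ
  obtain ⟨q1, q2, q3, q4, q5, q6, q7⟩ := hψ'
  rw [s.symm_apply_apply] at p3 p7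
  rw [s.apply_symm_apply] at q4 q6
  have key := step0 hm G x (fun g y => y = ψ g ∨ y = ψ' g) ?_ ?_ ?_ ?_ ?_
  · obtain ⟨φ, h1, h2⟩ := key
    refine ⟨φ, h1, fun g => ?_⟩
    have := h2 g
    push Not at this
    exact this
  · intro g
    refine ⟨{ψ g, ψ' g}, Finset.card_le_two, ?_⟩
    rintro y (h | h) <;> simp [h]
  · intro y
    have hone : ∀ θ : Fin m → Fin (m + 1), Injective θ →
        (Finset.univ.filter (fun g => y = θ g)).card ≤ 1 := by
      intro θ hθ
      rw [Finset.card_le_one]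
      intro u hu v hv
      simp only [Finset.mem_filter, Finset.mem_univ, true_and] at hu hv
      exact hθ (hu.symm.trans hv)
    refine ⟨Finset.univ.filter (fun g => y = ψ g) ∪ Finset.univ.filter (fun g => y = ψ' g), ?_, ?_⟩
    · have h3 := Finset.card_union_le (Finset.univ.filter (fun g => y = ψ g))
        (Finset.univ.filter (fun g => y = ψ' g))
      have h4 := hone ψ p1
      have h5 := hone ψ' q1
      omega
    · rintro g (h | h) <;> simp [h]
  · rintro (h | h)
    · exact p7 h.symm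
    · rw [q5] at h
      exact G.β0 (s.symm x) h.symm
  · rintro (h | h)
    · rw [p5] at h
      exact G.β0 (s x) h.symm
    · exact q6 h.symm
  · rintro (h | h)
    · rw [p3] at h
      exact G.β0 x h
    · rw [q4] at h
      exact G.β0 x h

/-- the family of fibre colourings -/
lemma exists_family (hm : 11 ≤ m) (G : Good s b β j) :
    ∃ f : Fin n → Fin m → Fin (m + 1), (∀ h, Inv s b β j (f h) h) ∧
      ∀ h g, f h g ≠ f (s h) g := by
  classical
  have hs : ∀ h, s h ≠ h := fun h hh => G.b1 h (by rw [hh])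
  have hs' : ∀ h, s.symm h ≠ h := fun h hh => G.b1 h (by
    have : s h = h := by
      have h1 := s.apply_symm_apply h
      rwa [hh] at h1
    rw [this])
  suffices H : ∀ S : Finset (Fin n), ∃ f : Fin n → Fin m → Fin (m + 1),
      (∀ h, Inv s b β j (f h) h) ∧ ∀ h ∈ S, ∀ g, f h g ≠ f (s h) g ∧ f h g ≠ f (s.symm h) g by
    obtain ⟨f, hf1, hf2⟩ := H Finset.univ
    exact ⟨f, hf1, fun h g => (hf2 h (Finset.mem_univ _) g).1⟩
  intro S
  induction S using Finset.induction_on with
  | empty =>
    have : ∀ x, ∃ φ, Inv s b β j φ x := by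
      intro x
      obtain ⟨φ, hφ, -⟩ := step0 hm G x (fun _ _ => False) (fun g => ⟨∅, by simp, by simp⟩)
        (fun g => ⟨∅, by simp, by simp⟩) (by simp) (by simp) (by simp)
      exact ⟨φ, hφ⟩
    choose f hf using this
    exact ⟨f, hf, by simp⟩
  | insert x S hx ih =>
    obtain ⟨f, hf1, hf2⟩ := ih
    obtain ⟨φ, hφ1, hφ2⟩ := step1 hm G x (hf1 (s x)) (hf1 (s.symm x))
    refine ⟨Function.update f x φ, ?_, ?_⟩
    · intro h
      by_cases hh : h = x
      · subst hh
        rw [Function.update_self]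
        exact hφ1
      · rw [Function.update_of_ne hh]
        exact hf1 h
    · intro h hh g
      by_cases hhx : h = x
      · subst hhx
        rw [Function.update_self, Function.update_of_ne (hs h), Function.update_of_ne (hs' h)]
        exact hφ2 g
      · have hhS : h ∈ S := (Finset.mem_insert.1 hh).resolve_left hhx
        rw [Function.update_of_ne hhx]
        constructor
        · by_cases h1 : s h = x
          · rw [h1, Function.update_self]
            have : s.symm x = h := by rw [← h1, s.symm_apply_apply]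
            have h2 := (hφ2 g).2
            rw [this] at h2
            exact h2.symm
          · rw [Function.update_of_ne h1]
            exact (hf2 h hhS g).1
        · by_cases h1 : s.symm h = x
          · rw [h1, Function.update_self]
            have : s x = h := by rw [← h1, s.apply_symm_apply]
            have h2 := (hφ2 g).1
            rw [this] at h2
            exact h2.symm
          · rw [Function.update_of_ne h1]
            exact (hf2 h hhS g).2

end Ext

end Pool.Agent.X54.LC
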