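import Pool.Agent.X54.LC.UB

/-! The locating chromatic numbers of `K_m □ C_n` and `K_m □ P_n`. -/

set_option autoImplicit false
open Function SimpleGraph

namespace Pool.Agent.X54.LC

lemma exists_good {m n : ℕ} (hm : 16 ≤ m) {b β : Fin n → Fin (m + 1)}
    {j : Fin n → Fin m} (G : Good (sp n) b β j) :
    ∃ f : Fin n → Fin m → Fin (m + 1), (∀ h, Inv (sp n) b β j (f h) h) ∧
      ∀ h g, f h g ≠ f (sp n h) g :=
  exists_family (by omega) G

theorem chiL_eq {m n : ℕ} (hm : 16 ≤ m) (hn : 16 ≤ n) {H : SimpleGraph (Fin n)}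
    (hH : H.Connected) (hadj : ∀ u v, H.Adj u v → v = sp n u ∨ v = (sp n).symm u)
    (z : Fin n)
    (hclose : ∀ h h' : Fin n, h ≠ h' → H.dist h z ≤ H.dist h' z + 1 →
      H.dist h' z ≤ H.dist h z + 1 → rho n h.val ≠ rho n h'.val) :
    chiL (KH m H) = if n ≤ m + 1 then m + 1 else m + 2 := by
  have hm0 : 0 < m := by omega
  have hn0 : 0 < n := by omega
  have r1 : ∀ h : Fin n, rho n (sp n h).val ≠ rho n h.val := fun h => rho_nx hn h.isLt
  have r2 : ∀ h : Fin n, rho n (sp n (sp n h)).val ≠ rho n h.val := fun h => rho_nx2 hn h.isLt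
  have r3 : ∀ h : Fin n, rho n (sp n (sp n (sp n h))).val ≠ rho n h.val :=
    fun h => rho_nx3 hn h.isLt
  have s1 : ∀ h : Fin n, sp n h ≠ h := fun h hh => r1 h (by rw [hh])
  have s2 : ∀ h : Fin n, sp n (sp n h) ≠ h := fun h hh => r2 h (by rw [hh])
  have s3 : ∀ h : Fin n, sp n (sp n (sp n h)) ≠ h := fun h hh => r3 h (by rw [hh])
  have hlt : ∀ h : Fin n, rho n h.val < m := fun h => by have := rho_lt n h.val; omega
  split_ifs with hnm
  · -- `m + 1` colours
    let b : Fin n → Fin (m + 1) := fun h => ⟨h.val, lt_of_lt_of_le h.isLt hnm⟩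
    have hb : Injective b := by
      intro h h' hh
      have h1 : (b h).val = (b h').val := by rw [hh]
      exact Fin.ext h1
    let β : Fin n → Fin (m + 1) := fun h => b (sp n (sp n h))
    have hβ : Injective β := fun h h' hh => (sp n).injective ((sp n).injective (hb hh))
    let j : Fin n → Fin m := fun h => ⟨rho n h.val, hlt h⟩
    have G : Good (sp n) b β j := by
      refine ⟨?_, ?_, ?_, ?_, ?_, ?_, ?_, ?_⟩
      · exact fun h hh => r1 h (congrArg Fin.val hh)
      · exact fun h hh => r2 h (congrArg Fin.val hh)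
      · exact fun h hh => r3 h (congrArg Fin.val hh)
      · exact fun h hh => s1 h (hb hh)
      · exact fun h hh => s2 h (hb hh)
      · exact fun h hh => s2 h (hb hh)
      · exact fun h hh => s1 _ (hb hh)
      · intro h hh
        have h1 : sp n (sp n h) = (sp n).symm h := hb hh
        have h2 := s3 ((sp n).symm h)
        rw [(sp n).apply_symm_apply] at h2
        exact h2 h1
    obtain ⟨f, hf1, hf2⟩ := exists_good hm G
    have hloc := case_one hm0 hn0 hH hadj G hf1 hf2 hb hβ
    apply le_antisymm
    · exact Nat.sInf_le ⟨_, hloc⟩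
    · have hne : ({k | ∃ c : Fin m × Fin n → Fin k, Locating (KH m H) k c} : Set ℕ).Nonempty :=
        ⟨m + 1, _, hloc⟩
      refine le_csInf hne ?_
      rintro k ⟨c, hc⟩
      exact lb_one hm0 (by omega) hH hc
  · -- `m + 2` colours
    let b : Fin n → Fin (m + 1) := fun h => ⟨rho n h.val, by have := hlt h; omega⟩
    let β : Fin n → Fin (m + 1) := fun h => ⟨8 + rho n h.val, by have := rho_lt n h.val; omega⟩
    let j : Fin n → Fin m := fun h => ⟨rho n h.val, hlt h⟩
    have G : Good (sp n) b β j := by
      refine ⟨?_, ?_, ?_, ?_, ?_, ?_, ?_, ?_⟩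
      · exact fun h hh => r1 h (congrArg Fin.val hh)
      · exact fun h hh => r2 h (congrArg Fin.val hh)
      · exact fun h hh => r3 h (congrArg Fin.val hh)
      · exact fun h hh => r1 h (congrArg Fin.val hh)
      · exact fun h hh => r2 h (congrArg Fin.val hh)
      · intro h hh
        have h1 : 8 + rho n h.val = rho n h.val := congrArg Fin.val hh
        omega
      · intro h hh
        have h1 : 8 + rho n h.val = rho n (sp n h).val := congrArg Fin.val hh
        have := rho_lt n (sp n h).val
        omega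
      · intro h hh
        have h1 : 8 + rho n h.val = rho n ((sp n).symm h).val := congrArg Fin.val hh
        have := rho_lt n ((sp n).symm h).val
        omega
    obtain ⟨f, hf1, hf2⟩ := exists_good hm G
    have hloc := case_two hm0 hH z ⟨8, by omega⟩ hadj G hf1 hf2
      (fun h hh => by
        have h1 : rho n h.val = 8 := congrArg Fin.val hh
        have := rho_lt n h.val
        omega)
      (fun h h' hne h1 h2 => by
        have h3 := hclose h h' hne h1 h2
        refine ⟨fun h4 => h3 (congrArg Fin.val h4), fun h4 => h3 ?_⟩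
        have h5 : 8 + rho n h.val = 8 + rho n h'.val := congrArg Fin.val h4
        omega)
    apply le_antisymm
    · exact Nat.sInf_le ⟨_, hloc⟩
    · have hne : ({k | ∃ c : Fin m × Fin n → Fin k, Locating (KH m H) k c} : Set ℕ).Nonempty :=
        ⟨m + 2, _, hloc⟩
      refine le_csInf hne ?_
      rintro k ⟨c, hc⟩
      have h1 := lb_one hm0 (by omega) hH hc
      rcases h1.eq_or_lt with h2 | h2
      · exfalso
        subst h2
        exact hnm (lb_two (by omega) hH
          (fun x => ⟨sp n x, (sp n).symm x, fun e he => hadj x e he⟩) hc)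
      · omega

/-! ### The cycle and the path -/

lemma cyc_adj {n : ℕ} (hn : 3 ≤ n) (u v : Fin n) :
    (cycleGraph n).Adj u v ↔ v = sp n u ∨ u = sp n v := by
  have key : ∀ a b : Fin n, (a - b).val = 1 ↔ a = sp n b := by
    intro a b
    have ha := a.isLt
    have hb := b.isLt
    rw [Fin.sub_def, Fin.ext_iff, sp_val]
    simp only
    by_cases h : b.val ≤ a.val
    · have h1 : (n - b.val + a.val) % n = a.val - b.val := by
        rw [show n - b.val + a.val = (a.val - b.val) + n by omega, Nat.add_mod_right,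
          Nat.mod_eq_of_lt (by omega)]
      rw [h1]
      unfold nx
      split_ifs <;> omega
    · have h1 : (n - b.val + a.val) % n = n - b.val + a.val := Nat.mod_eq_of_lt (by omega)
      rw [h1]
      unfold nx
      split_ifs <;> omega
  rw [cycleGraph_adj', key, key]
  exact or_comm

lemma cyc_hadj {n : ℕ} (hn : 3 ≤ n) (u v : Fin n) (h : (cycleGraph n).Adj u v) :
    v = sp n u ∨ v = (sp n).symm u := by
  rcases (cyc_adj hn u v).1 h with h1 | h1
  · exact Or.inl h1
  · exact Or.inr ((Equiv.symm_apply_eq _).2 h1).symm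

lemma cyc_conn {n : ℕ} (hn : 3 ≤ n) : (cycleGraph n).Connected := by
  obtain ⟨k, rfl⟩ : ∃ k, n = k + 1 := ⟨n - 1, by omega⟩
  exact cycleGraph_connected

lemma path_conn {n : ℕ} (hn : 3 ≤ n) : (pathGraph n).Connected := by
  obtain ⟨k, rfl⟩ : ∃ k, n = k + 1 := ⟨n - 1, by omega⟩
  exact pathGraph_connected k

lemma path_hadj {n : ℕ} (hn : 3 ≤ n) (u v : Fin n) (h : (pathGraph n).Adj u v) :
    v = sp n u ∨ v = (sp n).symm u :=
  cyc_hadj hn u v (pathGraph_le_cycleGraph h)

lemma cyc_dist {n : ℕ} (hn : 3 ≤ n) (v : Fin n) :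
    (cycleGraph n).dist v ⟨0, by omega⟩ = aa n v.val := by
  apply dist_level (cyc_conn hn) ⟨0, by omega⟩ (fun v => aa n v.val)
  · intro v
    have := v.isLt
    rw [Fin.ext_iff]
    simp only [aa]
    omega
  · intro u v huv
    have hu := u.isLt
    have hv := v.isLt
    rcases (cyc_adj hn u v).1 huv with h | h
    · have h1 : v.val = nx n u.val := by rw [h, sp_val]
      simp only [aa]
      rw [h1]
      unfold nx
      split_ifs <;> omega
    · have h1 : u.val = nx n v.val := by rw [h, sp_val]
      simp only [aa]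
      rw [h1]
      unfold nx
      split_ifs <;> omega
  · intro v hv
    have hv1 := v.isLt
    have hv0 : aa n v.val ≠ 0 := hv
    have hv2 : v.val ≠ 0 := by
      intro h
      apply hv0
      rw [h]
      simp [aa]
    by_cases h2 : 2 * v.val ≤ n
    · refine ⟨⟨v.val - 1, by omega⟩, (cyc_adj hn _ _).2 (Or.inr ?_), ?_⟩
      · apply Fin.ext
        change v.val = nx n (v.val - 1)
        unfold nx
        rw [if_neg (by omega)]
        omega
      · simp only [aa]
        omega
    · refine ⟨sp n v, (cyc_adj hn _ _).2 (Or.inl rfl), ?_⟩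
      simp only [aa, sp_val]
      unfold nx
      split_ifs <;> omega

lemma path_dist {n : ℕ} (hn : 3 ≤ n) (v : Fin n) :
    (pathGraph n).dist v ⟨0, by omega⟩ = v.val := by
  apply dist_level (path_conn hn) ⟨0, by omega⟩ (fun v => v.val)
  · intro v
    rw [Fin.ext_iff]
  · intro u v huv
    rw [pathGraph_adj] at huv
    omega
  · intro v hv
    have hv1 := v.isLt
    have hv0 : v.val ≠ 0 := hv
    refine ⟨⟨v.val - 1, by omega⟩, ?_, ?_⟩
    · rw [pathGraph_adj]
      simp only
      omega
    · simp only
      omega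

theorem main {m n : ℕ} (hm : 16 ≤ m) (hn : 16 ≤ n) :
    chiL (KH m (cycleGraph n)) = (if n ≤ m + 1 then m + 1 else m + 2) ∧
      chiL (KH m (pathGraph n)) = (if n ≤ m + 1 then m + 1 else m + 2) := by
  constructor
  · apply chiL_eq hm hn (cyc_conn (by omega)) (cyc_hadj (by omega)) ⟨0, by omega⟩
    intro h h' hne h1 h2
    rw [cyc_dist (by omega), cyc_dist (by omega)] at h1 h2
    exact rho_close h.isLt h'.isLt (fun hh => hne (Fin.ext hh)) h1 h2
  · apply chiL_eq hm hn (path_conn (by omega)) (path_hadj (by omega)) ⟨0, by omega⟩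
    intro h h' hne h1 h2
    rw [path_dist (by omega), path_dist (by omega)] at h1 h2
    exact rho_close' h.isLt h'.isLt (fun hh => hne (Fin.ext hh)) h1 h2

end Pool.Agent.X54.LC
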