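import Pool.Agent.X54.LC.Basic
import Pool.Agent.X54.LC.Fill

/-! Upper bounds: locating colourings from families of fibre colourings. -/

set_option autoImplicit false
open Function SimpleGraph

namespace Pool.Agent.X54.LC

/-! ### The classes -/

/-- distance to `0` in the cycle of length `n` -/
def aa (n h : ℕ) : ℕ := min h (n - h)

/-- the class of `h`: the distance to `0` modulo four and the side of `h` -/
def rho (n h : ℕ) : ℕ := aa n h % 4 + (if 2 * h ≤ n then 0 else 4)

lemma rho_lt (n h : ℕ) : rho n h < 8 := by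
  unfold rho
  split_ifs <;> omega

/-- cyclic successor -/
def nx (n h : ℕ) : ℕ := if h + 1 = n then 0 else h + 1

lemma nx_lt {n h : ℕ} (hh : h < n) : nx n h < n := by
  unfold nx
  split_ifs <;> omega

lemma rho_nx {n h : ℕ} (hn : 16 ≤ n) (hh : h < n) : rho n (nx n h) ≠ rho n h := by
  unfold rho nx aa
  split_ifs <;> omega

lemma rho_nx2 {n h : ℕ} (hn : 16 ≤ n) (hh : h < n) : rho n (nx n (nx n h)) ≠ rho n h := by
  unfold rho nx aa
  split_ifs <;> omega

lemma rho_nx3 {n h : ℕ} (hn : 16 ≤ n) (hh : h < n) : rho n (nx n (nx n (nx n h))) ≠ rho n h := by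
  unfold rho nx aa
  split_ifs <;> omega

lemma rho_close {n h h' : ℕ} (hh : h < n) (hh' : h' < n) (hne : h ≠ h')
    (h1 : aa n h ≤ aa n h' + 1) (h2 : aa n h' ≤ aa n h + 1) : rho n h ≠ rho n h' := by
  unfold rho aa at *
  split_ifs <;> omega

lemma rho_close' {n h h' : ℕ} (hh : h < n) (hh' : h' < n) (hne : h ≠ h')
    (h1 : h ≤ h' + 1) (h2 : h' ≤ h + 1) : rho n h ≠ rho n h' := by
  unfold rho aa at *
  split_ifs <;> omega

/-- the cyclic successor as a permutation -/
def sp (n : ℕ) : Equiv.Perm (Fin n) where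
  toFun h := ⟨nx n h.val, nx_lt h.isLt⟩
  invFun h := ⟨if h.val = 0 then n - 1 else h.val - 1, by have := h.isLt; split_ifs <;> omega⟩
  left_inv h := by
    apply Fin.ext
    have := h.isLt
    change (if nx n h.val = 0 then n - 1 else nx n h.val - 1) = h.val
    by_cases h1 : h.val + 1 = n
    · have h2 : nx n h.val = 0 := by unfold nx; rw [if_pos h1]
      rw [h2, if_pos rfl]
      omega
    · have h2 : nx n h.val = h.val + 1 := by unfold nx; rw [if_neg h1]
      rw [h2, if_neg (by omega)]
      omega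
  right_inv h := by
    apply Fin.ext
    have := h.isLt
    change nx n (if h.val = 0 then n - 1 else h.val - 1) = h.val
    by_cases h1 : h.val = 0
    · rw [if_pos h1]
      unfold nx
      rw [if_pos (by omega)]
      omega
    · rw [if_neg h1]
      unfold nx
      rw [if_neg (by omega)]
      omega

@[simp] lemma sp_val {n : ℕ} (h : Fin n) : (sp n h).val = nx n h.val := rfl

lemma sp_symm_val {n : ℕ} (h : Fin n) :
    ((sp n).symm h).val = if h.val = 0 then n - 1 else h.val - 1 := rfl

/-! ### Distances by level functions -/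

lemma dist_level {V : Type} {H : SimpleGraph V} (hH : H.Connected) (r : V) (φ : V → ℕ)
    (h0 : ∀ v, φ v = 0 ↔ v = r) (h1 : ∀ u v, H.Adj u v → φ v ≤ φ u + 1)
    (h2 : ∀ v, φ v ≠ 0 → ∃ u, H.Adj v u ∧ φ u + 1 = φ v) (v : V) : H.dist v r = φ v := by
  apply le_antisymm
  · have : ∀ k v, φ v = k → H.dist v r ≤ k := by
      intro k
      induction k with
      | zero =>
        intro v hv
        rw [(h0 v).1 hv]
        simp
      | succ k ih =>
        intro v hv
        obtain ⟨u, hu1, hu2⟩ := h2 v (by omega)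
        have h3 := ih u (by omega)
        have h4 := hH.dist_triangle (u := v) (v := u) (w := r)
        rw [SimpleGraph.dist_eq_one_iff_adj.2 hu1] at h4
        omega
    exact this _ v rfl
  · have : ∀ {a b : V} (p : H.Walk a b), φ a ≤ φ b + p.length := by
      intro a b p
      induction p with
      | nil => simp
      | cons h p ih =>
        have := h1 _ _ h.symm
        rw [SimpleGraph.Walk.length_cons]
        omega
    obtain ⟨p, hp⟩ := hH.exists_walk_length_eq_dist v r
    have h3 := this p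
    rw [(h0 r).2 rfl, hp] at h3
    omega

/-! ### The colourings -/

section UB

variable {m n : ℕ} {H : SimpleGraph (Fin n)} {s : Equiv.Perm (Fin n)}
  {b β : Fin n → Fin (m + 1)} {j : Fin n → Fin m} {f : Fin n → Fin m → Fin (m + 1)}

lemma surj_fib {φ : Fin m → Fin (m + 1)} {b0 : Fin (m + 1)} (hφ : Injective φ)
    (hb : ∀ g, φ g ≠ b0) (i : Fin (m + 1)) (hi : i ≠ b0) : ∃ g, φ g = i := by
  obtain ⟨b1, h1, h2⟩ := miss hφ
  apply h2
  rintro rfl
  have : ∃ g, φ g = b0 := h2 b0 hi.symm
  obtain ⟨g, hg⟩ := this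
  exact hb g hg

/-- the property (P3): the colour missing in fibre `h` sits above `j h` in the adjacent fibres -/
lemma P3 (hf : ∀ h, Inv s b β j (f h) h) {h h' : Fin n} (hh : h' = s h ∨ h' = s.symm h) {g : Fin m}
    (hg : f h' g = b h) : g = j h := by
  rcases hh with rfl | rfl
  · have h1 := (hf (s h)).2.2.1
    rw [s.symm_apply_apply] at h1
    exact (hf (s h)).1 (hg.trans h1.symm)
  · have h1 := (hf (s.symm h)).2.2.2.1
    rw [s.apply_symm_apply] at h1
    exact (hf (s.symm h)).1 (hg.trans h1.symm)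

lemma proper (hf : ∀ h, Inv s b β j (f h) h) (hf' : ∀ h g, f h g ≠ f (s h) g)
    (hadj : ∀ u v, H.Adj u v → v = s u ∨ v = s.symm u) :
    ∀ u v, (KH m H).Adj u v → f u.2 u.1 ≠ f v.2 v.1 := by
  rintro ⟨g, h⟩ ⟨g', h'⟩ hadj'
  rcases KH_adj.1 hadj' with ⟨h1, h2⟩ | ⟨h1, h2⟩
  · simp only at h1 h2 ⊢
    subst h2
    exact fun h3 => h1 ((hf h).1 h3)
  · simp only at h1 h2 ⊢
    subst h2
    rcases hadj _ _ h1 with rfl | rfl
    · exact hf' h g
    · have := hf' (s.symm h) g
      rw [s.apply_symm_apply] at this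
      exact this.symm

lemma case_one (hm : 0 < m) (hn : 0 < n) (hH : H.Connected)
    (hadj : ∀ u v, H.Adj u v → v = s u ∨ v = s.symm u) (G : Good s b β j)
    (hf : ∀ h, Inv s b β j (f h) h) (hf' : ∀ h g, f h g ≠ f (s h) g)
    (hb : Injective b) (hβ : Injective β) :
    Locating (KH m H) (m + 1) (fun u => f u.2 u.1) := by
  have hG := KH_conn hm hH
  have hsur : Function.Surjective (fun u : Fin m × Fin n => f u.2 u.1) := by
    intro i
    by_cases hi : i = b ⟨0, hn⟩
    · obtain ⟨g, hg⟩ := surj_fib (hf (s ⟨0, hn⟩)).1 (hf (s ⟨0, hn⟩)).2.1 i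
        (by rw [hi]; exact (G.b1 _).symm)
      exact ⟨(g, s ⟨0, hn⟩), hg⟩
    · obtain ⟨g, hg⟩ := surj_fib (hf ⟨0, hn⟩).1 (hf ⟨0, hn⟩).2.1 i hi
      exact ⟨(g, ⟨0, hn⟩), hg⟩
  refine ⟨proper hf hf' hadj, hsur, ?_⟩
  have half : ∀ (g g' : Fin m) (h h' : Fin n), h ≠ h' →
      (∀ i, distClass (KH m H) (fun u => f u.2 u.1) (g, h) i =
        distClass (KH m H) (fun u => f u.2 u.1) (g', h') i) → g = j h := by
    intro g g' h h' hne hcode
    obtain ⟨g1, hg1⟩ := surj_fib (hf h').1 (hf h').2.1 (b h) (fun hh => hne (hb hh))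
    have h1 : distClass (KH m H) (fun u => f u.2 u.1) (g', h') (b h) ≤ 1 := by
      refine (distClass_le hsur _ _ _).2 ⟨(g1, h'), hg1, ?_⟩
      rw [KH_dist hm hH]
      simp only [SimpleGraph.dist_self]
      split_ifs <;> omega
    rw [← hcode] at h1
    obtain ⟨⟨g2, h2⟩, h3, h4⟩ := (distClass_le hsur _ _ _).1 h1
    have h3 : f h2 g2 = b h := h3
    have h5 : h2 ≠ h := by
      rintro rfl
      exact (hf h2).2.1 g2 h3
    rcases (dist_le_one hG).1 h4 with h6 | h6
    · exact absurd (congrArg Prod.snd h6).symm h5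
    · rcases KH_adj.1 h6 with ⟨-, h7⟩ | ⟨h7, h8⟩
      · exact absurd h7.symm h5
      · simp only at h7 h8
        subst h8
        exact P3 hf (hadj _ _ h7) h3
  rintro ⟨g, h⟩ ⟨g', h'⟩ hcode
  have hcol : f h g = f h' g' := by
    have h1 := hcode (f h g)
    rw [(dc_zero hG hsur (g, h) (f h g)).2 rfl] at h1
    exact ((dc_zero hG hsur (g', h') (f h g)).1 h1.symm).symm
  by_cases hh : h = h'
  · subst hh
    rw [(hf h).1 hcol]
  · exfalso
    have h1 := half g g' h h' hh hcode
    have h2 := half g' g h' h (Ne.symm hh) (fun i => (hcode i).symm)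
    rw [h1, h2, (hf h).2.2.2.2.1, (hf h').2.2.2.2.1] at hcol
    exact hh (hβ hcol)

lemma case_two (hm : 0 < m) (hH : H.Connected) (z : Fin n) (q : Fin m)
    (hadj : ∀ u v, H.Adj u v → v = s u ∨ v = s.symm u) (G : Good s b β j)
    (hf : ∀ h, Inv s b β j (f h) h) (hf' : ∀ h g, f h g ≠ f (s h) g)
    (hq : ∀ h, j h ≠ q)
    (hclose : ∀ h h', h ≠ h' → H.dist h z ≤ H.dist h' z + 1 → H.dist h' z ≤ H.dist h z + 1 →
      b h ≠ b h' ∧ β h ≠ β h') :
    Locating (KH m H) (m + 2)
      (fun u => if u = (q, z) then Fin.last (m + 1) else Fin.castSucc (f u.2 u.1)) := by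
  classical
  have hG := KH_conn hm hH
  set c : Fin m × Fin n → Fin (m + 2) :=
    fun u => if u = (q, z) then Fin.last (m + 1) else Fin.castSucc (f u.2 u.1) with hc
  have hc1 : c (q, z) = Fin.last (m + 1) := by simp [hc]
  have hc2 : ∀ u, u ≠ (q, z) → c u = Fin.castSucc (f u.2 u.1) := by
    intro u hu
    simp [hc, hu]
  have hc3 : ∀ u, c u = Fin.last (m + 1) → u = (q, z) := by
    intro u hu
    by_contra hcon
    rw [hc2 u hcon] at hu
    exact (Fin.castSucc_lt_last _).ne hu
  have hc4 : ∀ u i, c u = Fin.castSucc i → f u.2 u.1 = i := by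
    intro u i hu
    have h1 : u ≠ (q, z) := by
      rintro rfl
      rw [hc1] at hu
      exact (Fin.castSucc_lt_last _).ne hu.symm
    rw [hc2 u h1] at hu
    exact Fin.castSucc_injective _ hu
  have hsur : Function.Surjective c := by
    intro i
    refine Fin.lastCases ⟨(q, z), hc1⟩ (fun i => ?_) i
    have hgo : ∀ h, h ≠ z → i ≠ b h → ∃ u, c u = Fin.castSucc i := by
      intro h hz hi
      obtain ⟨g, hg⟩ := surj_fib (hf h).1 (hf h).2.1 i hi
      refine ⟨(g, h), ?_⟩
      rw [hc2 (g, h) (fun h1 => hz (congrArg Prod.snd h1))]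
      simp only [hg]
    by_cases hi : i = b (s z)
    · refine hgo (s (s z)) ?_ ?_
      · intro h1
        exact G.b2 z (by rw [h1])
      · rw [hi]
        exact (G.b1 _).symm
    · refine hgo (s z) ?_ hi
      intro h1
      exact G.b1 z (by rw [h1])
  refine ⟨?_, hsur, ?_⟩
  · intro u v huv
    by_cases hu : u = (q, z)
    · rw [hu, hc1]
      intro h1
      have h2 := hc3 v h1.symm
      rw [hu, h2] at huv
      exact (KH m H).loopless.irrefl _ huv
    · by_cases hv : v = (q, z)
      · rw [hv, hc1]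
        intro h1
        exact hu (hc3 u h1)
      · rw [hc2 u hu, hc2 v hv]
        intro h1
        exact proper hf hf' hadj u v huv (Fin.castSucc_injective _ h1)
  have half : ∀ (g g' : Fin m) (h h' : Fin n), h ≠ h' →
      H.dist h z ≤ H.dist h' z + 1 → H.dist h' z ≤ H.dist h z + 1 →
      (∀ i, distClass (KH m H) c (g, h) i = distClass (KH m H) c (g', h') i) → g = j h := by
    intro g g' h h' hne hd1 hd2 hcode
    have hbb := (hclose h h' hne hd1 hd2).1
    obtain ⟨g1, hg1⟩ := surj_fib (hf h').1 (hf h').2.1 (b h) hbb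
    by_cases hsp : (g1, h') = (q, z)
    · exfalso
      have hq1 : g1 = q := congrArg Prod.fst hsp
      have hz1 : h' = z := congrArg Prod.snd hsp
      subst hq1 hz1
      rw [SimpleGraph.dist_self] at hd1
      rcases (dist_le_one hH).1 (by omega : H.dist h h' ≤ 1) with h1 | h1
      · exact hne h1
      · exact hq h (P3 hf (hadj _ _ h1) hg1).symm
    · have h1 : distClass (KH m H) c (g', h') (Fin.castSucc (b h)) ≤ 1 := by
        refine (distClass_le hsur _ _ _).2 ⟨(g1, h'), ?_, ?_⟩
        · rw [hc2 _ hsp]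
          simp only [hg1]
        · rw [KH_dist hm hH]
          simp only [SimpleGraph.dist_self]
          split_ifs <;> omega
      rw [← hcode] at h1
      obtain ⟨⟨g2, h2⟩, h3, h4⟩ := (distClass_le hsur _ _ _).1 h1
      have h3 : f h2 g2 = b h := hc4 _ _ h3
      have h5 : h2 ≠ h := by
        rintro rfl
        exact (hf h2).2.1 g2 h3
      rcases (dist_le_one hG).1 h4 with h6 | h6
      · exact absurd (congrArg Prod.snd h6).symm h5
      · rcases KH_adj.1 h6 with ⟨-, h7⟩ | ⟨h7, h8⟩
        · exact absurd h7.symm h5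
        · simp only at h7 h8
          subst h8
          exact P3 hf (hadj _ _ h7) h3
  have hdcl : ∀ u, distClass (KH m H) c u (Fin.last (m + 1)) = (KH m H).dist u (q, z) := by
    intro u
    apply le_antisymm
    · exact (distClass_le hsur _ _ _).2 ⟨(q, z), hc1, le_rfl⟩
    · obtain ⟨v, hv1, hv2⟩ := (distClass_le hsur u (Fin.last (m + 1)) _).1 le_rfl
      rw [hc3 v hv1] at hv2
      exact hv2
  rintro ⟨g, h⟩ ⟨g', h'⟩ hcode
  have hcol : c (g, h) = c (g', h') := by
    have h1 := hcode (c (g, h))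
    rw [(dc_zero hG hsur (g, h) _).2 rfl] at h1
    exact ((dc_zero hG hsur (g', h') _).1 h1.symm).symm
  by_cases hsp : (g, h) = (q, z)
  · rw [hsp, hc1] at hcol
    rw [hsp, hc3 _ hcol.symm]
  · have hsp' : (g', h') ≠ (q, z) := by
      intro h1
      rw [h1, hc1] at hcol
      exact hsp (hc3 _ hcol)
    rw [hc2 _ hsp, hc2 _ hsp'] at hcol
    have hcol : f h g = f h' g' := Fin.castSucc_injective _ hcol
    by_cases hh : h = h'
    · subst hh
      rw [(hf h).1 hcol]
    · exfalso
      have hd := hcode (Fin.last (m + 1))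
      rw [hdcl, hdcl, KH_dist hm hH, KH_dist hm hH] at hd
      simp only at hd
      have hd1 : H.dist h z ≤ H.dist h' z + 1 := by
        split_ifs at hd <;> omega
      have hd2 : H.dist h' z ≤ H.dist h z + 1 := by
        split_ifs at hd <;> omega
      have h1 := half g g' h h' hh hd1 hd2 hcode
      have h2 := half g' g h' h (Ne.symm hh) hd2 hd1 (fun i => (hcode i).symm)
      rw [h1, h2, (hf h).2.2.2.2.1, (hf h').2.2.2.2.1] at hcol
      exact (hclose h h' hh hd1 hd2).2 hcol

end UB

end Pool.Agent.X54.LC
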